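import Pool.Agent.H85.CY.Mac

/-! # No zeros over a field with a valuation -/

set_option autoImplicit false

namespace Pool.Agent.H85.CY

open MvPolynomial

/-- the weight of a monomial: the variables `x_{i,k}` have weight `i` -/
def weight {d r : ℕ} (α : Fin d × Fin r →₀ ℕ) : ℕ := ∑ p, (p.1 : ℕ) * α p

lemma fval_zero {ι R : Type} [Fintype ι] [DecidableEq ι] [CommRing R] {d : ℕ} (hd : d ≠ 0)
    (c : Mon ι d → R) : fval c (0 : ι → R) = 0 := by
  have h := fval_smul c (0 : R) (0 : ι → R)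
  rw [zero_pow hd, zero_mul] at h
  rw [← h]
  congr 1
  funext i
  simp

theorem loc {F : Type} {Γ : Type*} [Field F] [LinearOrderedCommGroupWithZero Γ]
    (v : Valuation F Γ) {d r : ℕ}
    (β : F) (hβ0 : β ≠ 0) (hβ1 : v β < 1)
    (hdist : ∀ i i' : Fin d, i ≠ i' → ∀ a b : F, a ≠ 0 → b ≠ 0 →
      v (β ^ (i : ℕ) * a ^ d) ≠ v (β ^ (i' : ℕ) * b ^ d))
    (c : Fin d → Fin r → Mon (Fin r) d → F)
    (hc : ∀ i (x : Fin r → F) (u : F), u ≠ 0 → (∀ k, v (x k) ≤ v u) → (∃ k, x k = u) →
      (∀ j, v (fval (c i j) x) ≤ v u ^ d) ∧ ∃ j, v (fval (c i j) x) = v u ^ d)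
    (G : Fin r → MvPolynomial (Fin d × Fin r) F) (hG : ∀ j, (G j).IsHomogeneous d)
    (hGc : ∀ j α, v ((G j).coeff α) ≤ v β ^ (weight α / d + 1))
    (x : Fin d × Fin r → F) (hx : x ≠ 0) :
    ∃ j, ∑ i : Fin d, β ^ (i : ℕ) * fval (c i j) (fun k => x (i, k)) + eval x (G j) ≠ 0 := by
  classical
  obtain ⟨⟨i1, k1⟩, hp⟩ : ∃ p, x p ≠ 0 := Function.ne_iff.1 hx
  have hd0 : 0 < d := lt_of_le_of_lt (Nat.zero_le _) i1.2
  have hnr : Nonempty (Fin r) := ⟨k1⟩
  have hnd : Nonempty (Fin d) := ⟨i1⟩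
  choose ku hku using fun i : Fin d => Finite.exists_max fun k : Fin r => v (x (i, k))
  set u : Fin d → F := fun i => x (i, ku i) with hu
  have hux : ∀ p : Fin d × Fin r, v (x p) ≤ v (u p.1) := fun p => hku p.1 p.2
  obtain ⟨i0, hi0⟩ := Finite.exists_max fun i : Fin d => v (β ^ (i : ℕ) * u i ^ d)
  set g : Fin d → Γ := fun i => v (β ^ (i : ℕ) * u i ^ d) with hg
  have hvβ0 : 0 < v β := (Valuation.pos_iff v).2 hβ0
  have hui1 : u i1 ≠ 0 := by
    intro h
    have h2 := hux (i1, k1)
    change v (x (i1, k1)) ≤ v (u i1) at h2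
    rw [h, map_zero, le_zero_iff, Valuation.zero_iff] at h2
    exact hp h2
  have hg0 : 0 < g i0 := by
    refine lt_of_lt_of_le ?_ (hi0 i1)
    exact (Valuation.pos_iff v).2 (mul_ne_zero (pow_ne_zero _ hβ0) (pow_ne_zero _ hui1))
  have hui0 : u i0 ≠ 0 := by
    intro h
    have h2 : g i0 = 0 := by
      rw [hg]
      simp only
      rw [h, zero_pow hd0.ne', mul_zero, map_zero]
    rw [h2] at hg0
    exact lt_irrefl _ hg0
  have hlt : ∀ i, i ≠ i0 → g i < g i0 := by
    intro i hi
    by_cases h : u i = 0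
    · have h2 : g i = 0 := by
        rw [hg]
        simp only
        rw [h, zero_pow hd0.ne', mul_zero, map_zero]
      rw [h2]
      exact hg0
    · exact lt_of_le_of_ne (hi0 i) (hdist i i0 hi _ _ h hui0)
  have hblk : ∀ (i : Fin d) (j : Fin r), v (β ^ (i : ℕ) * fval (c i j) (fun k => x (i, k))) ≤ g i := by
    intro i j
    by_cases h : u i = 0
    · have h3 : (fun k => x (i, k)) = 0 := by
        funext k
        have h2 := hux (i, k)
        change v (x (i, k)) ≤ v (u i) at h2
        rw [h, map_zero, le_zero_iff, Valuation.zero_iff] at h2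
        exact h2
      rw [h3, fval_zero hd0.ne', mul_zero, map_zero]
      exact zero_le
    · obtain ⟨h4, -⟩ := hc i (fun k => x (i, k)) (u i) h (fun k => hux (i, k)) ⟨ku i, rfl⟩
      rw [hg]
      simp only
      rw [map_mul, map_mul, map_pow v (u i)]
      exact mul_le_mul_right (h4 j) _
  obtain ⟨-, j, hj⟩ := hc i0 (fun k => x (i0, k)) (u i0) hui0 (fun k => hux (i0, k)) ⟨ku i0, rfl⟩
  refine ⟨j, ?_⟩
  have hmain : v (β ^ (i0 : ℕ) * fval (c i0 j) (fun k => x (i0, k))) = g i0 := by
    rw [hg]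
    simp only
    rw [map_mul, map_mul, map_pow v (u i0), hj]
  -- the terms of `G`
  have hGx : v (eval x (G j)) < g i0 := by
    rw [eval_eq']
    refine Valuation.map_sum_lt v hg0.ne' fun α hα => ?_
    have hdeg : ∑ p, α p = d := by
      have h1 := hG j (mem_support_iff.1 hα)
      rw [Finsupp.weight_apply, Finsupp.sum_fintype _ _ (fun _ => by simp)] at h1
      simpa using h1
    have h1 : v ((G j).coeff α * ∏ p, x p ^ α p) ≤
        v β ^ (weight α / d + 1) * ∏ p : Fin d × Fin r, v (u p.1) ^ α p := by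
      rw [map_mul, map_prod]
      refine mul_le_mul' (hGc j α) ?_
      refine Finset.prod_le_prod' fun p _ => ?_
      rw [map_pow]
      exact pow_le_pow_left' (hux p) _
    refine lt_of_le_of_lt h1 ?_
    set A := ∏ p : Fin d × Fin r, v (u p.1) ^ α p with hA
    by_cases hA0 : A = 0
    · rw [hA0, mul_zero]
      exact hg0
    · have hApos : 0 < A := zero_lt_iff.2 hA0
      have h2 : (v β ^ (weight α / d + 1) * A) ^ d < g i0 ^ d := by
        have h3 : v β ^ weight α * A ^ d = ∏ p : Fin d × Fin r, g p.1 ^ α p := by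
          rw [hA, ← Finset.prod_pow, weight, ← Finset.prod_pow_eq_pow_sum,
            ← Finset.prod_mul_distrib]
          refine Finset.prod_congr rfl fun p _ => ?_
          rw [hg]
          simp only
          rw [map_mul, map_pow, map_pow, mul_pow, ← pow_mul, ← pow_mul, ← pow_mul,
            Nat.mul_comm (α p) d]
        have h4 : ∏ p : Fin d × Fin r, g p.1 ^ α p ≤ g i0 ^ d := by
          calc ∏ p : Fin d × Fin r, g p.1 ^ α p ≤ ∏ p : Fin d × Fin r, g i0 ^ α p :=
                Finset.prod_le_prod' fun p _ => pow_le_pow_left' (hi0 p.1) _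
            _ = g i0 ^ d := by rw [Finset.prod_pow_eq_pow_sum, hdeg]
        refine lt_of_lt_of_le ?_ h4
        rw [← h3, mul_pow, ← pow_mul]
        have h5 : weight α < (weight α / d + 1) * d := by
          have := Nat.lt_div_mul_add (a := weight α) hd0
          calc weight α < weight α / d * d + d := this
            _ = _ := by ring
        have h6 : v β ^ ((weight α / d + 1) * d) < v β ^ weight α :=
          pow_lt_pow_right_of_lt_one₀ hvβ0 hβ1 h5
        exact mul_lt_mul_of_pos_right h6 (pow_pos hApos _)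
      exact lt_of_pow_lt_pow_left' _ h2
  -- the sum
  have hsplit : ∑ i : Fin d, β ^ (i : ℕ) * fval (c i j) (fun k => x (i, k)) + eval x (G j) =
      β ^ (i0 : ℕ) * fval (c i0 j) (fun k => x (i0, k)) +
      (∑ i ∈ Finset.univ.erase i0, β ^ (i : ℕ) * fval (c i j) (fun k => x (i, k)) +
        eval x (G j)) := by
    rw [← Finset.add_sum_erase _ _ (Finset.mem_univ i0)]
    ring
  have hrest : v (∑ i ∈ Finset.univ.erase i0, β ^ (i : ℕ) * fval (c i j) (fun k => x (i, k)) +
        eval x (G j)) < g i0 := by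
    refine Valuation.map_add_lt v ?_ hGx
    refine Valuation.map_sum_lt v hg0.ne' fun i hi => ?_
    exact lt_of_le_of_lt (hblk i j) (hlt i (Finset.ne_of_mem_erase hi))
  intro h0
  rw [hsplit] at h0
  have h1 : v (β ^ (i0 : ℕ) * fval (c i0 j) (fun k => x (i0, k)) +
      (∑ i ∈ Finset.univ.erase i0, β ^ (i : ℕ) * fval (c i j) (fun k => x (i, k)) +
        eval x (G j))) = v (β ^ (i0 : ℕ) * fval (c i0 j) (fun k => x (i0, k))) := by
    exact Valuation.map_add_eq_of_lt_left v (by rw [hmain]; exact hrest)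
  rw [h0, map_zero, hmain] at h1
  exact hg0.ne h1

end Pool.Agent.H85.CY
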