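import Pool.Graph.R_pool_sql_team_seeded_3997aac3.Q52.SecY.Above
import Pool.Agent.H85.CY.Loc

/-! # No points over the completions of extensions -/

set_option autoImplicit false

namespace Pool.Agent.H85.CY

open NumberField IsDedekindDomain MvPolynomial WithZero
open Pool.Agent.W189.NF (Ov)

variable {K L : Type} [Field K] [NumberField K] [Field L] [NumberField L] [Algebra K L]

/-- the map to the completion -/
noncomputable abbrev phi (K : Type) {L : Type} [Field K] [NumberField K] [Field L] [NumberField L]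
    [Algebra K L] (w : HeightOneSpectrum (𝓞 L)) : 𝓞 K →+* w.adicCompletion L :=
  (algebraMap L (w.adicCompletion L)).comp (algebraMap (𝓞 K) L)

lemma val_phi (w : HeightOneSpectrum (𝓞 L)) (a : 𝓞 K) :
    Valued.v (phi K w a) = w.intValuation (algebraMap (𝓞 K) (𝓞 L) a) := by
  rw [← Pool.Agent.Q52.SecY.valued_Ov w]
  have e1 : ((algebraMap (𝓞 L) (Ov w) (algebraMap (𝓞 K) (𝓞 L) a) : Ov w) : w.adicCompletion L) =
      algebraMap L (w.adicCompletion L) (algebraMap (𝓞 L) L (algebraMap (𝓞 K) (𝓞 L) a)) := by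
    rw [HeightOneSpectrum.algebraMap_adicCompletion]
    rfl
  rw [e1]
  rfl

lemma val_phi_le (v : HeightOneSpectrum (𝓞 K)) (w : HeightOneSpectrum (𝓞 L)) (a : 𝓞 K) (s : ℕ)
    (ha : a ∈ v.asIdeal ^ s) : Valued.v (phi K w a) ≤
      exp (-((v.asIdeal.ramificationIdx' w.asIdeal * s : ℕ) : ℤ)) := by
  rw [val_phi]
  refine (w.intValuation_le_pow_iff_mem _ _).2 ?_
  rw [pow_mul]
  have h1 : algebraMap (𝓞 K) (𝓞 L) a ∈ (v.asIdeal ^ s).map (algebraMap (𝓞 K) (𝓞 L)) :=
    Ideal.mem_map_of_mem _ ha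
  rw [Ideal.map_pow] at h1
  exact Ideal.pow_right_mono Ideal.le_pow_ramificationIdx' s h1

theorem place (v : HeightOneSpectrum (𝓞 K)) (w : HeightOneSpectrum (𝓞 L))
    [w.asIdeal.LiesOver v.asIdeal] {d r : ℕ} (b : 𝓞 K) (hb : b ∈ v.asIdeal)
    (hb2 : b ∉ v.asIdeal ^ 2) (c : Fin d → Fin r → Mon (Fin r) d → 𝓞 K)
    (hdet : ∀ i, (macM (c i)).det ∉ v.asIdeal)
    (he : Nat.Coprime (v.asIdeal.ramificationIdx' w.asIdeal) d)
    (G : Fin r → MvPolynomial (Fin d × Fin r) (𝓞 K)) (hG : ∀ j, (G j).IsHomogeneous d)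
    (hGc : ∀ j α, (G j).coeff α ∈ v.asIdeal ^ (weight α / d + 1))
    (x : Fin d × Fin r → w.adicCompletion L) (hx : x ≠ 0) :
    ∃ j, ∑ i : Fin d, phi K w b ^ (i : ℕ) *
      fval (fun γ => phi K w (c i j γ)) (fun k => x (i, k)) +
      eval x (map (phi K w) (G j)) ≠ 0 := by
  classical
  have hvm : v.asIdeal.IsMaximal := v.isMaximal
  have hwp : w.asIdeal.IsPrime := w.isPrime
  set e := v.asIdeal.ramificationIdx' w.asIdeal with hedef
  have hover : v.asIdeal = w.asIdeal.under (𝓞 K) := Ideal.LiesOver.over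
  have hmem : ∀ x : 𝓞 K, algebraMap (𝓞 K) (𝓞 L) x ∈ w.asIdeal ↔ x ∈ v.asIdeal := by
    intro x
    rw [hover]
    rfl
  obtain ⟨h1, h2⟩ := Pool.Agent.Q52.SecX.exact_ramification v w b (by rwa [pow_one]) hb2
  have hvb : Valued.v (phi K w b) = exp (-(e : ℤ)) := by
    rw [val_phi]
    exact Pool.Agent.Q52.SecY.intVal_eq w _ _ h1 h2
  have he0 : 0 < e := by
    by_contra h0
    have h3 : e = 0 := by omega
    rw [← hedef, h3, zero_add, pow_one, hmem] at h2
    exact h2 hb
  have hb0 : phi K w b ≠ 0 := by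
    intro h
    rw [h, map_zero] at hvb
    exact exp_ne_zero hvb.symm
  -- integral elements
  have hint : ∀ a : 𝓞 K, Valued.v (phi K w a) ≤ 1 := by
    intro a
    rw [val_phi]
    exact w.intValuation_le_one _
  let j0 : 𝓞 K →+* Ov w := (algebraMap (𝓞 L) (Ov w)).comp (algebraMap (𝓞 K) (𝓞 L))
  have hcoe : ∀ a : 𝓞 K, ((j0 a : Ov w) : w.adicCompletion L) = phi K w a := by
    intro a
    have e1 : ((j0 a : Ov w) : w.adicCompletion L) =
        algebraMap L (w.adicCompletion L) (algebraMap (𝓞 L) L (algebraMap (𝓞 K) (𝓞 L) a)) := by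
      rw [HeightOneSpectrum.algebraMap_adicCompletion]
      rfl
    rw [e1]
    rfl
  have hmax : ∀ a : Ov w, a ∈ IsLocalRing.maximalIdeal (Ov w) ↔
      Valued.v (a : w.adicCompletion L) < 1 := by
    intro a
    rw [IsLocalRing.mem_maximalIdeal, mem_nonunits_iff,
      HeightOneSpectrum.adicCompletionIntegers.isUnit_iff_valued_eq_one]
    have h3 : Valued.v (a : w.adicCompletion L) ≤ 1 :=
      (HeightOneSpectrum.mem_adicCompletionIntegers _ _ _).1 a.2
    exact ⟨fun h => lt_of_le_of_ne h3 h, fun h => h.ne⟩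
  refine loc Valued.v (phi K w b) hb0 ?_ ?_ (fun i j γ => phi K w (c i j γ)) ?_
    (fun j => map (phi K w) (G j)) (fun j => (hG j).map _) ?_ x hx
  · rw [hvb, ← exp_zero, exp_lt_exp]
    omega
  · intro i i' hii a a' ha ha' h
    obtain ⟨m, hm⟩ : ∃ m : ℤ, Valued.v a = exp m := ⟨log (Valued.v a),
      (exp_log ((Valuation.ne_zero_iff _).2 ha)).symm⟩
    obtain ⟨m', hm'⟩ : ∃ m : ℤ, Valued.v a' = exp m := ⟨log (Valued.v a'),
      (exp_log ((Valuation.ne_zero_iff _).2 ha')).symm⟩
    rw [map_mul, map_mul, map_pow, map_pow, map_pow, map_pow, hvb, hm, hm'] at h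
    rw [← exp_nsmul, ← exp_nsmul, ← exp_nsmul, ← exp_nsmul, ← exp_add, ← exp_add, exp_inj] at h
    simp only [nsmul_eq_mul] at h
    have h3 : (d : ℤ) ∣ ((i : ℤ) - (i' : ℤ)) * (e : ℤ) := ⟨m - m', by
      push_cast at h ⊢
      linarith⟩
    have h4 : IsCoprime (d : ℤ) (e : ℤ) := by
      rw [Int.isCoprime_iff_gcd_eq_one]
      exact he.symm
    have h5 : (d : ℤ) ∣ (i : ℤ) - (i' : ℤ) := h4.dvd_of_dvd_mul_right h3
    apply hii
    apply Fin.ext
    have h6 := i.2
    have h7 := i'.2
    have h8 : (i : ℤ) - (i' : ℤ) = 0 := by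
      apply Int.eq_zero_of_abs_lt_dvd h5
      rw [abs_lt]
      constructor <;> omega
    omega
  · intro i y u hu hy hk
    obtain ⟨k, hk⟩ := hk
    have hu0 : Valued.v u ≠ 0 := (Valuation.ne_zero_iff _).2 hu
    have hyu : ∀ k, Valued.v (u⁻¹ * y k) ≤ 1 := by
      intro k
      rw [map_mul, map_inv₀]
      exact inv_mul_le_one_of_le₀ (hy k) zero_le
    let z : Fin r → Ov w := fun k => ⟨u⁻¹ * y k, by
      rw [HeightOneSpectrum.mem_adicCompletionIntegers]
      exact hyu k⟩
    have hyz : y = fun k => u * (z k : w.adicCompletion L) := by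
      funext k
      change y k = u * (u⁻¹ * y k)
      rw [mul_inv_cancel_left₀ hu]
    have hval : ∀ j, fval (fun γ => phi K w (c i j γ)) y =
        u ^ d * ((fval (fun γ => j0 (c i j γ)) z : Ov w) : w.adicCompletion L) := by
      intro j
      rw [hyz, fval_smul]
      congr 1
      have h3 := fval_map (algebraMap (Ov w) (w.adicCompletion L)) (fun γ => j0 (c i j γ)) z
      have h4 : (algebraMap (Ov w) (w.adicCompletion L)) (fval (fun γ => j0 (c i j γ)) z) =
        ((fval (fun γ => j0 (c i j γ)) z : Ov w) : w.adicCompletion L) := rfl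
      rw [← h4, h3]
      congr 1
    constructor
    · intro j
      rw [hval, map_mul, map_pow]
      have h3 : Valued.v ((fval (fun γ => j0 (c i j γ)) z : Ov w) : w.adicCompletion L) ≤ 1 :=
        (HeightOneSpectrum.mem_adicCompletionIntegers _ _ _).1
          (fval (fun γ => j0 (c i j γ)) z : Ov w).2
      exact mul_le_of_le_one_right' h3
    · by_contra hcon
      push Not at hcon
      have h3 : ∀ j, fval (fun γ => j0 (c i j γ)) z ∈ IsLocalRing.maximalIdeal (Ov w) := by
        intro j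
        rw [hmax]
        have h4 : Valued.v ((fval (fun γ => j0 (c i j γ)) z : Ov w) : w.adicCompletion L) ≤ 1 :=
          (HeightOneSpectrum.mem_adicCompletionIntegers _ _ _).1
            (fval (fun γ => j0 (c i j γ)) z : Ov w).2
        refine lt_of_le_of_ne h4 fun h5 => ?_
        apply hcon j
        rw [hval, map_mul, map_pow, h5, mul_one]
      have h4 := mac_prime (IsLocalRing.maximalIdeal (Ov w)) (fun j γ => j0 (c i j γ)) (by
        rw [← det_map j0, hmax, hcoe, val_phi, not_lt]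
        have h5 : algebraMap (𝓞 K) (𝓞 L) (macM (c i)).det ∉ w.asIdeal := by
          rw [hmem]
          exact hdet i
        rw [← HeightOneSpectrum.intValuation_lt_one_iff_mem, not_lt] at h5
        exact h5) z h3 k
      rw [hmax] at h4
      have h5 : ((z k : Ov w) : w.adicCompletion L) = 1 := by
        change u⁻¹ * y k = 1
        rw [hk, inv_mul_cancel₀ hu]
      rw [h5, map_one] at h4
      exact lt_irrefl _ h4
  · intro j α
    rw [coeff_map, hvb, ← exp_nsmul]
    refine (val_phi_le v w _ _ (hGc j α)).trans ?_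
    rw [exp_le_exp]
    simp only [nsmul_eq_mul]
    push_cast
    rw [← hedef]
    apply le_of_eq
    ring

end Pool.Agent.H85.CY
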