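import Pool.Agent.H85.CY.Elim

/-! # Smoothness outside the zero set of a polynomial -/

set_option autoImplicit false

namespace Pool.Agent.H85.CY

open MvPolynomial

/-- the index set of the coefficients -/
abbrev Idx (r d : ℕ) : Type := Option (Fin d × Fin r × Mon (Fin r) d)

section defs

variable {R : Type} [CommRing R] {r d : ℕ}

/-- the form `F_{i,j}` in the variables `x_{i,k}` -/
noncomputable def block (c : Idx r d → R) (i : Fin d) (j : Fin r) :
    MvPolynomial (Fin d × Fin r) R :=
  ∑ γ : Mon (Fin r) d, C (c (some (i, j, γ))) * ∏ k, X (i, k) ^ γ.1 k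

/-- the form `∑_i b ^ i F_{i,j}` -/
noncomputable def eqn (c : Idx r d → R) (j : Fin r) : MvPolynomial (Fin d × Fin r) R :=
  ∑ i : Fin d, C (c none ^ (i : ℕ)) * block c i j

lemma eqn_map {S : Type} [CommRing S] (φ : R →+* S) (c : Idx r d → R) (j : Fin r) :
    map φ (eqn c j) = eqn (fun o => φ (c o)) j := by
  simp only [eqn, block, map_sum, map_mul, map_prod, map_pow, map_C, map_X]

lemma eqn_hom (c : Idx r d → R) (j : Fin r) : (eqn c j).IsHomogeneous d := by
  refine IsHomogeneous.sum _ _ _ fun i _ => ?_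
  refine (IsHomogeneous.sum _ _ _ fun γ _ => ?_).C_mul _
  refine IsHomogeneous.C_mul ?_ _
  have h := IsHomogeneous.prod (Finset.univ : Finset (Fin r))
    (fun k => (X (i, k) : MvPolynomial (Fin d × Fin r) R) ^ γ.1 k) (fun k => γ.1 k)
    (fun k _ => isHomogeneous_X_pow _ _)
  rwa [γ.sum] at h

/-- the minors of the matrix of the derivatives -/
noncomputable def minor (Q : Fin r → MvPolynomial (Fin d × Fin r) R)
    (s : Fin r → Fin d × Fin r) : MvPolynomial (Fin d × Fin r) R :=
  (Matrix.of fun j l => pderiv (s l) (Q j)).det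

lemma minor_map {S : Type} [CommRing S] (φ : R →+* S) (Q : Fin r → MvPolynomial (Fin d × Fin r) R)
    (s : Fin r → Fin d × Fin r) :
    map φ (minor Q s) = minor (fun j => map φ (Q j)) s := by
  rw [minor, minor, RingHom.map_det]
  congr 1
  ext j l
  rw [RingHom.mapMatrix_apply, Matrix.map_apply, Matrix.of_apply, Matrix.of_apply,
    ← pderiv_map]

lemma minor_hom (Q : Fin r → MvPolynomial (Fin d × Fin r) R) (hQ : ∀ j, (Q j).IsHomogeneous d)
    (s : Fin r → Fin d × Fin r) :
    (minor Q s).IsHomogeneous (r * (d - 1)) := by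
  rw [minor, Matrix.det_apply]
  refine IsHomogeneous.sum _ _ _ fun σ _ => ?_
  have h : (∏ i, (Matrix.of fun j l => pderiv (s l) (Q j)) (σ i) i).IsHomogeneous
      (r * (d - 1)) := by
    have h1 := IsHomogeneous.prod (Finset.univ : Finset (Fin r))
      (fun i => (Matrix.of fun j l => pderiv (s l) (Q j)) (σ i) i) (fun _ => d - 1)
      (fun i _ => by
        rw [Matrix.of_apply]
        exact (hQ (σ i)).pderiv)
    rwa [Finset.sum_const, Finset.card_univ, Fintype.card_fin, smul_eq_mul] at h1
  rcases Int.units_eq_one_or (Equiv.Perm.sign σ) with h1 | h1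
  · rw [h1, one_smul]
    exact h
  · rw [h1, Units.neg_smul, one_smul]
    exact h.neg

lemma eval_minor (Q : Fin r → MvPolynomial (Fin d × Fin r) R) (s : Fin r → Fin d × Fin r)
    (z : Fin d × Fin r → R) :
    eval z (minor Q s) = (Matrix.of fun j l => eval z (pderiv (s l) (Q j))).det := by
  rw [minor, RingHom.map_det]
  rfl

/-- the index set of the coefficients of all forms -/
abbrev Gdx (r d : ℕ) : Type := Fin r × Mon (Fin d × Fin r) d

/-- the form with the coefficients `c` -/
noncomputable def gen (c : Gdx r d → R) (j : Fin r) : MvPolynomial (Fin d × Fin r) R :=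
  ∑ γ : Mon (Fin d × Fin r) d, C (c (j, γ)) * ∏ p, X p ^ γ.1 p

lemma gen_map {S : Type} [CommRing S] (φ : R →+* S) (c : Gdx r d → R) (j : Fin r) :
    map φ (gen c j) = gen (fun o => φ (c o)) j := by
  simp only [gen, map_sum, map_mul, map_prod, map_pow, map_C, map_X]

lemma gen_hom (c : Gdx r d → R) (j : Fin r) : (gen c j).IsHomogeneous d := by
  refine IsHomogeneous.sum _ _ _ fun γ _ => ?_
  refine IsHomogeneous.C_mul ?_ _
  have h := IsHomogeneous.prod (Finset.univ : Finset (Fin d × Fin r))
    (fun p => (X p : MvPolynomial (Fin d × Fin r) R) ^ γ.1 p) (fun p => γ.1 p)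
    (fun p _ => isHomogeneous_X_pow _ _)
  rwa [γ.sum] at h

end defs

section example0

variable {r d : ℕ}

/-- distinct numbers -/
def num (p : Fin d × Fin r) : ℕ := finProdFinEquiv p

lemma num_inj : Function.Injective (num : Fin d × Fin r → ℕ) :=
  Fin.val_injective.comp finProdFinEquiv.injective

/-- the coefficients of the forms `∑_p a_p ^ j x_p ^ d` -/
noncomputable def ex0 (r d : ℕ) : Idx r d → ℚ
  | none => 1
  | some (i, j, γ) => ∑ k : Fin r, if γ.1 = Pi.single k d then (num (i, k) : ℚ) ^ (j : ℕ) else 0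

lemma eqn_ex0 (j : Fin r) : eqn (ex0 r d) j =
    ∑ p : Fin d × Fin r, C ((num p : ℚ) ^ (j : ℕ)) * X p ^ d := by
  rw [eqn, Fintype.sum_prod_type]
  refine Finset.sum_congr rfl fun i _ => ?_
  have h1 : ex0 r d none = 1 := rfl
  rw [h1, one_pow, C_1, one_mul, block]
  have h2 : ∀ γ : Mon (Fin r) d, C (ex0 r d (some (i, j, γ))) *
      ∏ k, (X (i, k) : MvPolynomial (Fin d × Fin r) ℚ) ^ γ.1 k =
      ∑ k : Fin r, if γ.1 = Pi.single k d then
        C ((num (i, k) : ℚ) ^ (j : ℕ)) * X (i, k) ^ d else 0 := by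
    intro γ
    have h3 : ex0 r d (some (i, j, γ)) =
      ∑ k : Fin r, if γ.1 = Pi.single k d then (num (i, k) : ℚ) ^ (j : ℕ) else 0 := rfl
    rw [h3, map_sum, Finset.sum_mul]
    refine Finset.sum_congr rfl fun k _ => ?_
    split_ifs with h
    · congr 1
      rw [h, Finset.prod_eq_single k]
      · rw [Pi.single_eq_same]
      · intro k' _ hk'
        rw [Pi.single_eq_of_ne hk', pow_zero]
      · intro h
        exact absurd (Finset.mem_univ _) h
    · rw [C_0, zero_mul]
  simp only [h2]
  rw [Finset.sum_comm]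
  refine Finset.sum_congr rfl fun k _ => ?_
  have hs : ∑ i, (Pi.single k d : Fin r → ℕ) i = d := by
    rw [Finset.sum_pi_single']
    simp
  rw [Finset.sum_eq_single (Mon.of _ hs)]
  · rw [if_pos (Mon.of_val _ hs)]
  · intro γ _ hγ
    rw [if_neg]
    intro h
    exact hγ (Subtype.ext h)
  · intro h
    exact absurd (Finset.mem_univ _) h

/-- the forms `∑_p a_p ^ j x_p ^ d` -/
noncomputable def ferm (r d : ℕ) (j : Fin r) : MvPolynomial (Fin d × Fin r) ℚ :=
  ∑ p : Fin d × Fin r, C ((num p : ℚ) ^ (j : ℕ)) * X p ^ d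

/-- the coefficients of these forms -/
noncomputable def ex1 (r d : ℕ) : Gdx r d → ℚ := fun o =>
  ∑ p : Fin d × Fin r, if o.2.1 = Pi.single p d then (num p : ℚ) ^ (o.1 : ℕ) else 0

lemma gen_ex1 (j : Fin r) : gen (ex1 r d) j = ferm r d j := by
  have h2 : ∀ γ : Mon (Fin d × Fin r) d, C (ex1 r d (j, γ)) *
      ∏ p, (X p : MvPolynomial (Fin d × Fin r) ℚ) ^ γ.1 p =
      ∑ p : Fin d × Fin r, if γ.1 = Pi.single p d then
        C ((num p : ℚ) ^ (j : ℕ)) * X p ^ d else 0 := by
    intro γ
    rw [ex1, map_sum, Finset.sum_mul]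
    refine Finset.sum_congr rfl fun k _ => ?_
    simp only
    split_ifs with h
    · congr 1
      rw [h, Finset.prod_eq_single k]
      · rw [Pi.single_eq_same]
      · intro k' _ hk'
        rw [Pi.single_eq_of_ne hk', pow_zero]
      · intro h
        exact absurd (Finset.mem_univ _) h
    · rw [C_0, zero_mul]
  rw [gen, ferm]
  simp only [h2]
  rw [Finset.sum_comm]
  refine Finset.sum_congr rfl fun k _ => ?_
  have hs : ∑ i, (Pi.single k d : Fin d × Fin r → ℕ) i = d := by
    rw [Finset.sum_pi_single']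
    simp
  rw [Finset.sum_eq_single (Mon.of _ hs)]
  · rw [if_pos (Mon.of_val _ hs)]
  · intro γ _ hγ
    rw [if_neg]
    intro h
    exact hγ (Subtype.ext h)
  · intro h
    exact absurd (Finset.mem_univ _) h

lemma pderiv_ex0 (j : Fin r) (p : Fin d × Fin r) : pderiv p (ferm r d j) =
    C ((num p : ℚ) ^ (j : ℕ)) * ((d : MvPolynomial (Fin d × Fin r) ℚ) * X p ^ (d - 1)) := by
  rw [ferm, map_sum, Finset.sum_eq_single p]
  · rw [pderiv_C_mul, pderiv_pow, pderiv_X_self, mul_one]
  · intro q _ hq
    rw [pderiv_C_mul, pderiv_pow, pderiv_X_of_ne hq, mul_zero, mul_zero]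
  · intro h
    exact absurd (Finset.mem_univ _) h

/-- the example is smooth -/
lemma ex0_smooth (hd : 0 < d) {k : Type} [Field k] [Algebra ℚ k] (z : Fin d × Fin r → k)
    (hQ : ∀ j, aeval z (ferm r d j) = 0)
    (hJ : ∀ s, aeval z (minor (ferm r d) s) = 0) : z = 0 := by
  classical
  have hchar : CharZero k := algebraRat.charZero k
  have hQ' : ∀ j : Fin r, ∑ p : Fin d × Fin r, (num p : k) ^ (j : ℕ) * z p ^ d = 0 := by
    intro j
    have h := hQ j
    rw [ferm, map_sum] at h
    rw [← h]
    refine Finset.sum_congr rfl fun p _ => ?_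
    rw [map_mul, aeval_C, map_pow, map_pow, map_natCast, aeval_X]
  set Z : Finset (Fin d × Fin r) := Finset.univ.filter fun p => z p ≠ 0 with hZ
  have hP : Fintype.card (Fin d × Fin r) = d * r := by
    rw [Fintype.card_prod, Fintype.card_fin, Fintype.card_fin]
  by_cases hcard : r ≤ Z.card
  · exfalso
    obtain ⟨Z', hZ', hc⟩ := Finset.exists_subset_card_eq hcard
    let e : Fin r ≃ Z' := (finCongr hc.symm).trans Z'.equivFin.symm
    have h := hJ fun l => (e l).1
    have h1 : aeval z (minor (ferm r d) fun l => (e l).1) =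
        (Matrix.of fun (j : Fin r) (l : Fin r) => ((d : k) * z (e l).1 ^ (d - 1)) *
          (Matrix.vandermonde fun l => ((num (e l).1 : ℕ) : k)).transpose j l).det := by
      rw [minor, AlgHom.map_det]
      congr 1
      ext j l
      rw [AlgHom.mapMatrix_apply, Matrix.map_apply, Matrix.of_apply, Matrix.of_apply,
        pderiv_ex0, map_mul, aeval_C, map_pow, map_natCast, map_mul, map_pow, map_natCast,
        aeval_X, Matrix.transpose_apply, Matrix.vandermonde_apply]
      ring
    rw [h1, Matrix.det_mul_row, Matrix.det_transpose] at h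
    rcases mul_eq_zero.1 h with h2 | h2
    · rw [Finset.prod_eq_zero_iff] at h2
      obtain ⟨l, -, h3⟩ := h2
      have h4 : z (e l).1 ≠ 0 := by
        have := hZ' (e l).2
        rw [hZ, Finset.mem_filter] at this
        exact this.2
      rcases mul_eq_zero.1 h3 with h5 | h5
      · rw [Nat.cast_eq_zero] at h5
        omega
      · exact pow_ne_zero _ h4 h5
    · have h3 : Function.Injective fun l => ((num (e l).1 : ℕ) : k) := by
        intro l l' hll
        have h4 : num (e l).1 = num (e l').1 := Nat.cast_injective hll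
        exact e.injective (Subtype.ext (num_inj h4))
      exact Matrix.det_vandermonde_ne_zero_iff.2 h3 h2
  · have hle : Z.card ≤ r := by omega
    have hr : r ≤ (Finset.univ : Finset (Fin d × Fin r)).card := by
      rw [Finset.card_univ, hP]
      exact Nat.le_mul_of_pos_left r hd
    obtain ⟨Z', hZ', -, hc⟩ := Finset.exists_subsuperset_card_eq (Finset.subset_univ Z) hle hr
    let e : Fin r ≃ Z' := (finCongr hc.symm).trans Z'.equivFin.symm
    have h3 : Function.Injective fun l => ((num (e l).1 : ℕ) : k) := by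
      intro l l' hll
      have h4 : num (e l).1 = num (e l').1 := Nat.cast_injective hll
      exact e.injective (Subtype.ext (num_inj h4))
    have h4 := Matrix.eq_zero_of_forall_pow_sum_mul_pow_eq_zero (v := fun l => z (e l).1 ^ d) h3
      (by
        intro j
        rw [← hQ' j]
        have h5 : ∑ p : Fin d × Fin r, (num p : k) ^ (j : ℕ) * z p ^ d =
            ∑ p ∈ Z', (num p : k) ^ (j : ℕ) * z p ^ d := by
          symm
          refine Finset.sum_subset (Finset.subset_univ _) fun p _ hp => ?_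
          have h6 : z p = 0 := by
            by_contra h7
            apply hp
            apply hZ'
            rw [hZ, Finset.mem_filter]
            exact ⟨Finset.mem_univ _, h7⟩
          rw [h6, zero_pow hd.ne', mul_zero]
        rw [h5, ← Finset.sum_coe_sort Z', ← Equiv.sum_comp e]
        refine Finset.sum_congr rfl fun l _ => ?_
        ring)
    funext p
    by_contra h5
    have h6 : p ∈ Z' := by
      apply hZ'
      rw [hZ, Finset.mem_filter]
      exact ⟨Finset.mem_univ _, h5⟩
    have h7 := congrFun h4 (e.symm ⟨p, h6⟩)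
    simp only [Equiv.apply_symm_apply, Pi.zero_apply] at h7
    exact h5 ((pow_eq_zero_iff hd.ne').1 h7)

end example0

/-- **Smoothness.** Outside the zero set of a polynomial, the common zeros of the forms are
nonsingular. -/
theorem smooth_family {τ : Type} {r d : ℕ} (hd : 0 < d)
    (g : Fin r → MvPolynomial (Fin d × Fin r) (MvPolynomial τ ℚ))
    (hg : ∀ j, (g j).IsHomogeneous d) (c₀ : τ → ℚ) (h0 : ∀ j, map (eval c₀) (g j) = ferm r d j) :
    ∃ Δ : MvPolynomial τ ℚ, Δ ≠ 0 ∧
    ∀ (k : Type) [Field k] [Algebra ℚ k] (c : τ → k), aeval c Δ ≠ 0 →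
      ∀ z : Fin d × Fin r → k, z ≠ 0 →
        (∀ j, eval z (map (aeval c : MvPolynomial τ ℚ →ₐ[ℚ] k).toRingHom (g j)) = 0) →
        ∃ s : Fin r → Fin d × Fin r, (Matrix.of fun j l => eval z (pderiv (s l)
          (map (aeval c : MvPolynomial τ ℚ →ₐ[ℚ] k).toRingHom (g j)))).det ≠ 0 := by
  classical
  obtain ⟨Δ, hΔ, h⟩ := elim (τ := τ) (P := Fin d × Fin r)
    (Λ := Fin r ⊕ (Fin r → Fin d × Fin r))
    (fun l => match l with
      | Sum.inl j => g j
      | Sum.inr s => minor g s)
    (fun l => match l with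
      | Sum.inl _ => d
      | Sum.inr _ => r * (d - 1))
    (by
      rintro (j | s)
      · exact hg j
      · exact minor_hom g hg s)
    c₀ (by
      intro z hz
      refine ex0_smooth hd z (fun j => ?_) fun s => ?_
      · have h1 := hz (Sum.inl j)
        simp only at h1
        rwa [h0] at h1
      · have h1 := hz (Sum.inr s)
        simp only at h1
        rw [minor_map] at h1
        simpa only [h0] using h1)
  refine ⟨Δ, hΔ, fun k _ _ c hc z hz hQ => ?_⟩
  by_contra hcon
  push Not at hcon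
  apply hz
  refine h k c hc z ?_
  rintro (j | s)
  · exact hQ j
  · simp only
    rw [minor_map, eval_minor]
    exact hcon s

theorem smooth_generic (r d : ℕ) (hd : 0 < d) : ∃ Δ : MvPolynomial (Idx r d) ℚ, Δ ≠ 0 ∧
    ∀ (k : Type) [Field k] [Algebra ℚ k] (c : Idx r d → k), aeval c Δ ≠ 0 →
      ∀ z : Fin d × Fin r → k, z ≠ 0 → (∀ j, eval z (eqn c j) = 0) →
        ∃ s : Fin r → Fin d × Fin r,
          (Matrix.of fun j l => eval z (pderiv (s l) (eqn c j))).det ≠ 0 := by
  obtain ⟨Δ, hΔ, h⟩ := smooth_family hd (fun j => eqn (X : Idx r d → MvPolynomial (Idx r d) ℚ) j)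
    (fun j => eqn_hom _ j) (ex0 r d) (fun j => by
      rw [eqn_map]
      simp only [eval_X]
      exact eqn_ex0 j)
  refine ⟨Δ, hΔ, fun k _ _ c hc z hz hQ => ?_⟩
  have hX : (fun o => (aeval c : MvPolynomial (Idx r d) ℚ →ₐ[ℚ] k).toRingHom (X o)) = c := by
    funext o
    exact aeval_X c o
  have h1 := h k c hc z hz
  simp only [eqn_map, hX] at h1
  exact h1 hQ

theorem smooth_gen (r d : ℕ) (hd : 0 < d) : ∃ Δ : MvPolynomial (Gdx r d) ℚ, Δ ≠ 0 ∧
    ∀ (k : Type) [Field k] [Algebra ℚ k] (c : Gdx r d → k), aeval c Δ ≠ 0 →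
      ∀ z : Fin d × Fin r → k, z ≠ 0 → (∀ j, eval z (gen c j) = 0) →
        ∃ s : Fin r → Fin d × Fin r,
          (Matrix.of fun j l => eval z (pderiv (s l) (gen c j))).det ≠ 0 := by
  obtain ⟨Δ, hΔ, h⟩ := smooth_family hd (fun j => gen (X : Gdx r d → MvPolynomial (Gdx r d) ℚ) j)
    (fun j => gen_hom _ j) (ex1 r d) (fun j => by
      rw [gen_map]
      simp only [eval_X]
      exact gen_ex1 j)
  refine ⟨Δ, hΔ, fun k _ _ c hc z hz hQ => ?_⟩
  have hX : (fun o => (aeval c : MvPolynomial (Gdx r d) ℚ →ₐ[ℚ] k).toRingHom (X o)) = c := by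
    funext o
    exact aeval_X c o
  have h1 := h k c hc z hz
  simp only [gen_map, hX] at h1
  exact h1 hQ

end Pool.Agent.H85.CY
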