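import Pool.Graph.R_pool_sql_team_seeded_3997aac3.Q52.SecY.Cnt
import Pool.Graph.R_seed8.TH377.Dyn.Box
import Pool.Agent.H85.CY.Smooth

/-! # Counting -/

set_option autoImplicit false

namespace Pool.Agent.H85.CY

open NumberField IsDedekindDomain MvPolynomial Pool.Agent.TH120.Sec
open Pool.Agent.Q52.SecX (SmallV many_vec ncard_fiber)

/-- the Schwartz-Zippel bound -/
lemma sz {F τ : Type} [Field F] [Finite F] [Fintype τ] (q : MvPolynomial τ F) (hq : q ≠ 0) :
    {x : τ → F | eval x q = 0}.ncard * Nat.card F ≤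
      q.totalDegree * Nat.card F ^ Fintype.card τ := by
  classical
  have := Fintype.ofFinite F
  let e := Fintype.equivFin τ
  have hq' : rename e q ≠ 0 := by
    intro h
    exact hq (rename_injective e e.injective (by rw [h, map_zero]))
  have h := schwartz_zippel_totalDegree (p := rename e q) hq' (Finset.univ : Finset F)
  have hF : (0 : ℚ≥0) < (Fintype.card F : ℚ≥0) := by exact_mod_cast Fintype.card_pos
  rw [Finset.card_univ, div_le_div_iff₀ (by positivity) hF] at h
  have h' : {f ∈ Fintype.piFinset fun _ : Fin (Fintype.card τ) => (Finset.univ : Finset F) |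
      (eval f) (rename e q) = 0}.card * Fintype.card F ≤
      (rename e q).totalDegree * Fintype.card F ^ Fintype.card τ := by
    exact_mod_cast h
  have h1 : {x : τ → F | eval x q = 0}.ncard ≤
      {f ∈ Fintype.piFinset fun _ : Fin (Fintype.card τ) => (Finset.univ : Finset F) |
      (eval f) (rename e q) = 0}.card := by
    rw [← Set.ncard_coe_finset]
    refine Set.ncard_le_ncard_of_injOn (fun x i => x (e.symm i)) ?_ ?_ (Set.toFinite _)
    · intro x hx
      rw [Finset.mem_coe, Finset.mem_filter]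
      refine ⟨by simp, ?_⟩
      rw [eval_rename]
      have h2 : (fun i => x (e.symm i)) ∘ e = x := by
        funext o
        simp
      rw [h2]
      exact hx
    · intro x _ y _ hxy
      funext o
      have := congrFun hxy (e o)
      simpa using this
  rw [Nat.card_eq_fintype_card]
  calc _ ≤ _ := Nat.mul_le_mul_right _ h1
    _ ≤ _ := h'
    _ ≤ _ := Nat.mul_le_mul_right _ (totalDegree_rename_le _ _)

lemma tdeg_map {R S τ : Type} [CommRing R] [CommRing S] (f : R →+* S) (p : MvPolynomial τ R) :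
    (map f p).totalDegree ≤ p.totalDegree :=
  Finset.sup_mono (support_map_subset f p)

/-- clearing denominators -/
lemma clear {τ : Type} (p : MvPolynomial τ ℚ) : ∃ m : ℤ, m ≠ 0 ∧ ∃ p' : MvPolynomial τ ℤ,
    map (Int.castRingHom ℚ) p' = C (m : ℚ) * p := by
  induction p using MvPolynomial.induction_on' with
  | monomial u a =>
    refine ⟨a.den, by exact_mod_cast a.den_nz, monomial u a.num, ?_⟩
    rw [map_monomial, C_mul_monomial]
    congr 1
    push_cast
    rw [mul_comm]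
    exact (Rat.mul_den_eq_num a).symm
  | add p q hp hq =>
    obtain ⟨m1, h1, p', h2⟩ := hp
    obtain ⟨m2, h3, q', h4⟩ := hq
    refine ⟨m1 * m2, mul_ne_zero h1 h3, C m2 * p' + C m1 * q', ?_⟩
    rw [map_add, map_mul, map_mul, h2, h4, map_C, map_C]
    push_cast
    rw [C_mul]
    simp only [eq_intCast]
    ring

/-- the coefficients of the blocks -/
abbrev Jdx (r d : ℕ) : Type := Fin d × Fin r × Mon (Fin r) d

/-- the product of the determinants -/
noncomputable def prd (R : Type) [CommRing R] (r d : ℕ) : MvPolynomial (Jdx r d) R :=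
  ∏ i : Fin d, (macM fun (j : Fin r) (γ : Mon (Fin r) d) =>
    (X (i, j, γ) : MvPolynomial (Jdx r d) R)).det

lemma prd_map {R S : Type} [CommRing R] [CommRing S] (φ : R →+* S) (r d : ℕ) :
    map φ (prd R r d) = prd S r d := by
  rw [prd, prd, map_prod]
  refine Finset.prod_congr rfl fun i _ => ?_
  rw [det_map (map φ)]
  simp only [map_X]

lemma prd_eval {R : Type} [CommRing R] {r d : ℕ} (y : Jdx r d → R) :
    eval y (prd R r d) = ∏ i : Fin d, (macM fun j γ => y (i, j, γ)).det := by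
  rw [prd, map_prod]
  refine Finset.prod_congr rfl fun i _ => ?_
  rw [det_map (eval y)]
  simp only [eval_X]

lemma prd_ne (R : Type) [CommRing R] [Nontrivial R] (r d : ℕ) : prd R r d ≠ 0 := by
  intro h
  have h1 := prd_eval (R := R) (r := r) (d := d) fun o => dia o.2.1 o.2.2
  rw [h, map_zero] at h1
  have h2 : ∀ i : Fin d, (macM fun (j : Fin r) (γ : Mon (Fin r) d) => (dia j γ : R)).det = 1 := by
    intro i
    have := macM_dia (R := R) (r := r) (d := d)
    change (macM (dia : Fin r → Mon (Fin r) d → R)).det = 1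
    rw [this, Matrix.det_one]
  rw [Finset.prod_eq_one fun i _ => h2 i] at h1
  exact zero_ne_one h1

section count

variable {K : Type} [Field K] [NumberField K] (v : HeightOneSpectrum (𝓞 K))

/-- the good vectors modulo `v ^ 2` -/
def GoodN (r d : ℕ) : Set (Idx r d → 𝓞 K ⧸ v.asIdeal ^ 2) :=
  {x | (pr v (x none) = 0 ∧ x none ≠ 0) ∧
    eval (fun o => pr v (x (some o))) (prd (𝓞 K ⧸ v.asIdeal) r d) ≠ 0}

lemma goodN_iff {r d : ℕ} (y : Idx r d → 𝓞 K)
    (hy : (fun o => Ideal.Quotient.mk (v.asIdeal ^ 2) (y o)) ∈ GoodN v r d) :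
    y none ∈ v.asIdeal ∧ y none ∉ v.asIdeal ^ 2 ∧
      ∀ i : Fin d, (macM fun j γ => y (some (i, j, γ))).det ∉ v.asIdeal := by
  have hvp : v.asIdeal.IsPrime := v.isPrime
  obtain ⟨⟨h1, h2⟩, h3⟩ := hy
  refine ⟨?_, ?_, ?_⟩
  · exact Ideal.Quotient.eq_zero_iff_mem.1 h1
  · exact fun h => h2 (Ideal.Quotient.eq_zero_iff_mem.2 h)
  · intro i hi
    apply h3
    rw [prd_eval]
    refine Finset.prod_eq_zero (Finset.mem_univ i) ?_
    have h4 := det_map (Ideal.Quotient.mk v.asIdeal) fun j γ => y (some (i, j, γ))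
    rw [Ideal.Quotient.eq_zero_iff_mem.2 hi] at h4
    exact h4.symm

/-- zeros of a polynomial modulo `v`, counted modulo `v ^ 2` -/
lemma lift_card {τ : Type} [Fintype τ] (q : MvPolynomial τ (𝓞 K ⧸ v.asIdeal)) (hq : q ≠ 0) :
    {x : τ → 𝓞 K ⧸ v.asIdeal ^ 2 | eval (fun o => pr v (x o)) q = 0}.ncard *
      Ideal.absNorm v.asIdeal ≤ q.totalDegree * (Ideal.absNorm v.asIdeal ^ 2) ^
        Fintype.card τ := by
  classical
  have hfin := finite_sq v
  have hmax : v.asIdeal.IsMaximal := v.isMaximal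
  have hfin' : Finite (𝓞 K ⧸ v.asIdeal) := Ideal.finiteQuotientOfFreeOfNeBot _ v.ne_bot
  let _ : Field (𝓞 K ⧸ v.asIdeal) := Ideal.Quotient.field _
  have h1 := sz q hq
  rw [card_residue] at h1
  let f : (τ → 𝓞 K ⧸ v.asIdeal ^ 2) →+ (τ → 𝓞 K ⧸ v.asIdeal) :=
    { toFun := fun x i => pr v (x i)
      map_zero' := by funext i; exact map_zero _
      map_add' := by intro x y; funext i; exact map_add _ _ _ }
  have hf : Function.Surjective f := by
    intro y
    choose x hx using fun i => pr_surj v (y i)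
    exact ⟨x, funext hx⟩
  have h2 := ncard_fiber f hf
    {x : τ → 𝓞 K ⧸ v.asIdeal ^ 2 | eval (fun o => pr v (x o)) q = 0}
    {y : τ → 𝓞 K ⧸ v.asIdeal | eval y q = 0} (fun x hx => hx)
  rw [Nat.card_fun, Nat.card_fun, Pool.Agent.W417.SecC.D2.card_sq, card_residue,
    Nat.card_eq_fintype_card] at h2
  have hN : 0 < Ideal.absNorm v.asIdeal := Pool.Agent.W417.SecC.D2.norm_pos v
  set N := Ideal.absNorm v.asIdeal with hNdef
  set A := {x : τ → 𝓞 K ⧸ v.asIdeal ^ 2 | eval (fun o => pr v (x o)) q = 0}.ncard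
  set B := {y : τ → 𝓞 K ⧸ v.asIdeal | eval y q = 0}.ncard
  have h3 : (A * N) * N ^ Fintype.card τ ≤
      (q.totalDegree * (N ^ 2) ^ Fintype.card τ) * N ^ Fintype.card τ := by
    calc (A * N) * N ^ Fintype.card τ = (A * N ^ Fintype.card τ) * N := by ring
      _ ≤ (B * (N ^ 2) ^ Fintype.card τ) * N := Nat.mul_le_mul_right _ h2
      _ = (B * N) * (N ^ 2) ^ Fintype.card τ := by ring
      _ ≤ (q.totalDegree * N ^ Fintype.card τ) * (N ^ 2) ^ Fintype.card τ :=
          Nat.mul_le_mul_right _ h1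
      _ = _ := by ring
  exact Nat.le_of_mul_le_mul_right h3 (pow_pos hN _)

/-- the degree of the polynomial -/
noncomputable def deg0 (r d : ℕ) : ℕ := (prd ℤ r d).totalDegree

lemma goodN_card (r d : ℕ) (hN : 2 * deg0 r d ≤ Ideal.absNorm v.asIdeal) :
    (1 / 2 : ℝ) * (1 / (Ideal.absNorm v.asIdeal : ℝ) -
      1 / (Ideal.absNorm v.asIdeal : ℝ) ^ 2) *
      ((Ideal.absNorm v.asIdeal : ℝ) ^ 2) ^ (Fintype.card (Idx r d)) ≤
        ((GoodN v r d).ncard : ℝ) := by
  classical
  have hfin := finite_sq v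
  have hmax : v.asIdeal.IsMaximal := v.isMaximal
  have hN2 := Pool.Agent.Q52.SecY.two_le_norm v
  have hnt : Nontrivial (𝓞 K ⧸ v.asIdeal) := Ideal.Quotient.nontrivial_iff.2 hmax.ne_top
  have h1 := lift_card v (prd (𝓞 K ⧸ v.asIdeal) r d) (prd_ne _ r d)
  have hdeg : (prd (𝓞 K ⧸ v.asIdeal) r d).totalDegree ≤ deg0 r d := by
    rw [deg0, ← prd_map (Int.castRingHom (𝓞 K ⧸ v.asIdeal))]
    exact tdeg_map _ _
  set N := Ideal.absNorm v.asIdeal with hNdef
  set J : Set (𝓞 K ⧸ v.asIdeal ^ 2) := {x | pr v x = 0} with hJ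
  have hJc : J.ncard = N := ker_ncard v
  have hJ0 : (J \ {0}).ncard = N - 1 := by
    rw [Set.ncard_sdiff_singleton_of_mem (show (0 : 𝓞 K ⧸ v.asIdeal ^ 2) ∈ J from map_zero _), hJc]
  set B : Set (Jdx r d → 𝓞 K ⧸ v.asIdeal ^ 2) :=
    {x | eval (fun o => pr v (x o)) (prd (𝓞 K ⧸ v.asIdeal) r d) = 0} with hB
  have h2 : ((J \ {0}) ×ˢ Bᶜ).ncard ≤ (GoodN v r d).ncard := by
    refine Set.ncard_le_ncard_of_injOn (fun x o => match o with
      | none => x.1
      | some o => x.2 o) ?_ ?_ (Set.toFinite _)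
    · rintro ⟨a, x⟩ ⟨ha, hx⟩
      exact ⟨⟨ha.1, ha.2⟩, hx⟩
    · rintro ⟨a, x⟩ _ ⟨a', x'⟩ _ h
      have e1 : a = a' := congrFun h none
      have e2 : x = x' := by
        funext o
        exact congrFun h (some o)
      rw [e1, e2]
  rw [Set.ncard_prod, hJ0] at h2
  have h3 : B.ncard + Bᶜ.ncard = (N ^ 2) ^ Fintype.card (Jdx r d) := by
    rw [Set.ncard_add_ncard_compl, Nat.card_fun, Pool.Agent.W417.SecC.D2.card_sq,
      Nat.card_eq_fintype_card]
  have hcard : Fintype.card (Idx r d) = Fintype.card (Jdx r d) + 1 := Fintype.card_option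
  rw [hcard]
  set t := Fintype.card (Jdx r d) with ht
  have hNr : (2 : ℝ) ≤ N := by exact_mod_cast hN2
  have h4 : (B.ncard : ℝ) * N ≤ (deg0 r d : ℝ) * ((N : ℝ) ^ 2) ^ t := by
    have h5 : B.ncard * N ≤ deg0 r d * (N ^ 2) ^ t := h1.trans (Nat.mul_le_mul_right _ hdeg)
    exact_mod_cast h5
  have h5 : (2 : ℝ) * (deg0 r d : ℝ) ≤ N := by exact_mod_cast hN
  have hpow : (0 : ℝ) < ((N : ℝ) ^ 2) ^ t := by positivity
  have h6 : (B.ncard : ℝ) ≤ (1 / 2) * ((N : ℝ) ^ 2) ^ t := by
    have h7 : (B.ncard : ℝ) * N ≤ ((1 / 2) * ((N : ℝ) ^ 2) ^ t) * N := by nlinarith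
    exact le_of_mul_le_mul_right h7 (by linarith)
  have h7 : (B.ncard : ℝ) + (Bᶜ.ncard : ℝ) = ((N : ℝ) ^ 2) ^ t := by exact_mod_cast h3
  have h8 : ((N : ℝ) - 1) * (Bᶜ.ncard : ℝ) ≤ ((GoodN v r d).ncard : ℝ) := by
    have h9 : ((N - 1 : ℕ) : ℝ) = (N : ℝ) - 1 := by
      rw [Nat.cast_sub (by omega)]
      norm_num
    rw [← h9]
    exact_mod_cast h2
  have hN0 : (N : ℝ) ≠ 0 := by linarith
  have h9 : (1 / 2 : ℝ) * (1 / (N : ℝ) - 1 / (N : ℝ) ^ 2) * ((N : ℝ) ^ 2) ^ (t + 1) =
      ((N : ℝ) - 1) * ((1 / 2) * ((N : ℝ) ^ 2) ^ t) := by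
    rw [pow_succ ((N : ℝ) ^ 2)]
    field_simp
  rw [h9]
  refine le_trans ?_ h8
  refine mul_le_mul_of_nonneg_left ?_ (by linarith)
  linarith

lemma badN_card (r d : ℕ) (hN : 2 * deg0 r d ≤ Ideal.absNorm v.asIdeal) :
    (((GoodN v r d)ᶜ).ncard : ℝ) ≤ (1 - (1 / 2 : ℝ) *
      (1 / (Ideal.absNorm v.asIdeal : ℝ) - 1 / (Ideal.absNorm v.asIdeal : ℝ) ^ 2)) *
      ((Ideal.absNorm v.asIdeal : ℝ) ^ 2) ^ (Fintype.card (Idx r d)) := by
  classical
  have hfin := finite_sq v
  have h1 := goodN_card v r d hN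
  have h2 : (GoodN v r d).ncard + ((GoodN v r d)ᶜ).ncard =
      (Ideal.absNorm v.asIdeal ^ 2) ^ (Fintype.card (Idx r d)) := by
    rw [Set.ncard_add_ncard_compl, Nat.card_fun, Pool.Agent.W417.SecC.D2.card_sq,
      Nat.card_eq_fintype_card]
  have h3 : ((GoodN v r d).ncard : ℝ) + (((GoodN v r d)ᶜ).ncard : ℝ) =
      ((Ideal.absNorm v.asIdeal : ℝ) ^ 2) ^ (Fintype.card (Idx r d)) := by
    exact_mod_cast h2
  rw [sub_mul, one_mul]
  linarith

end count

section final

variable {K : Type} [Field K] [NumberField K]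

/-- primes of large norm -/
lemma large_norm (B : ℕ) (v : HeightOneSpectrum (𝓞 K)) (hv : ((B.factorial : ℕ) : 𝓞 K) ∉ v.asIdeal) :
    B < Ideal.absNorm v.asIdeal := by
  by_contra h
  push Not at h
  apply hv
  have h1 : Ideal.absNorm v.asIdeal ∣ B.factorial :=
    Nat.dvd_factorial (Pool.Agent.W417.SecC.D2.norm_pos v) h
  obtain ⟨m, hm⟩ := h1
  rw [hm]
  push_cast
  exact Ideal.mul_mem_right _ _ (Ideal.absNorm_mem _)

/-- reindexing -/
noncomputable abbrev rei {ι R : Type} [Fintype ι] (y : ι → R) : Fin (Fintype.card ι) → R :=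
  fun i => y ((Fintype.equivFin ι).symm i)

/-- almost all vectors are good at many primes -/
theorem many (r d M : ℕ) (ε : ℝ) (hε : 0 < ε) :
    SmallV (Fintype.card (Idx r d)) (rei '' {y : Idx r d → 𝓞 K |
      ¬ ∃ T : Finset (HeightOneSpectrum (𝓞 K)), T.card = M ∧
      ∀ v ∈ T, (fun o => Ideal.Quotient.mk (v.asIdeal ^ 2) (y o)) ∈ GoodN v r d}) ε := by
  classical
  set D := Fintype.card (Idx r d) with hD
  let e : Idx r d ≃ Fin D := Fintype.equivFin _
  have key := many_vec D (fun v : HeightOneSpectrum (𝓞 K) => 2 * deg0 r d ≤ Ideal.absNorm v.asIdeal)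
    (fun v => {x : Fin D → 𝓞 K ⧸ v.asIdeal ^ 2 | (fun o => x (e o)) ∉ GoodN v r d}) (1 / 2) (by
      intro c hc ε' hε'
      obtain ⟨T, hT, hTδ⟩ := Pool.Agent.TH120.Sec.supply_split 2 Nat.prime_two
        (c * (((2 * deg0 r d).factorial : ℕ) : 𝓞 K))
        (mul_ne_zero hc (by exact_mod_cast (Nat.factorial_ne_zero _))) (1 / 2) (by norm_num)
        (by norm_num) ε' hε'
      refine ⟨T, fun v hv => ⟨fun h => ?_, ?_⟩, hTδ⟩
      · exact (hT v hv).1 (Ideal.mul_mem_right _ _ h)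
      · exact (large_norm _ v fun h => (hT v hv).1 (Ideal.mul_mem_left _ _ h)).le) (by
      intro v hv
      have hfin := finite_sq v
      refine le_trans ?_ (badN_card v r d hv)
      have h1 : {x : Fin D → 𝓞 K ⧸ v.asIdeal ^ 2 | (fun o => x (e o)) ∉ GoodN v r d}.ncard ≤
          ((GoodN v r d)ᶜ).ncard := by
        refine Set.ncard_le_ncard_of_injOn (fun x o => x (e o)) (fun x hx => hx) ?_ (Set.toFinite _)
        intro x _ y _ hxy
        funext i
        have := congrFun hxy (e.symm i)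
        simpa using this
      exact_mod_cast h1) M ∅ ε hε
  refine key.mono ?_ le_rfl
  rintro _ ⟨y, hy, rfl⟩
  rintro ⟨T, hT, -, hTg⟩
  apply hy
  refine ⟨T, hT, fun v hv => ?_⟩
  have h3 := (hTg v hv).2
  rw [Set.mem_ofPred_eq, not_not] at h3
  have h4 : (fun o => red (v.asIdeal ^ 2) D (rei y) (e o)) =
      fun o => Ideal.Quotient.mk (v.asIdeal ^ 2) (y o) := by
    funext o
    change Ideal.Quotient.mk (v.asIdeal ^ 2) (y (e.symm (e o))) = _
    rw [e.symm_apply_apply]
  rwa [h4] at h3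

/-- the zero set of a polynomial is small -/
theorem zero_small {τ : Type} [Fintype τ] (Δ : MvPolynomial τ ℚ) (hΔ : Δ ≠ 0) (ε : ℝ) (hε : 0 < ε) :
    SmallV (Fintype.card τ) (rei '' {y : τ → 𝓞 K |
      aeval (fun o => algebraMap (𝓞 K) (AlgebraicClosure K) (y o)) Δ = 0}) ε := by
  classical
  obtain ⟨m, hm, p, hp⟩ := clear Δ
  have hp0 : p ≠ 0 := by
    rintro rfl
    rw [map_zero] at hp
    exact mul_ne_zero (C_ne_zero.2 (by exact_mod_cast hm)) hΔ hp.symm
  obtain ⟨μ, hμ⟩ := ne_zero_iff.1 hp0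
  obtain ⟨B, hB⟩ := exists_nat_ge ((p.totalDegree : ℝ) / ε)
  obtain ⟨T, hT, hTδ⟩ := Pool.Agent.TH120.Sec.supply_split (K := K) 2 Nat.prime_two
    (((p.coeff μ : ℤ) : 𝓞 K) * ((B.factorial : ℕ) : 𝓞 K))
    (mul_ne_zero (by exact_mod_cast hμ) (by exact_mod_cast (Nat.factorial_ne_zero _)))
    (1 / 2) (by norm_num) (by norm_num) 1 one_pos
  have hTne : T.Nonempty := by
    rw [Finset.nonempty_iff_ne_empty]
    rintro rfl
    rw [Finset.prod_empty] at hTδ
    exact lt_irrefl _ hTδ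
  obtain ⟨v, hv⟩ := hTne
  have h1 : ((p.coeff μ : ℤ) : 𝓞 K) ∉ v.asIdeal := fun h =>
    (hT v hv).1 (Ideal.mul_mem_right _ _ h)
  have h2 : B < Ideal.absNorm v.asIdeal := large_norm _ v fun h =>
    (hT v hv).1 (Ideal.mul_mem_left _ _ h)
  have hmax : v.asIdeal.IsMaximal := v.isMaximal
  have hfin' : Finite (𝓞 K ⧸ v.asIdeal) := Ideal.finiteQuotientOfFreeOfNeBot _ v.ne_bot
  let _ : Field (𝓞 K ⧸ v.asIdeal) := Ideal.Quotient.field _
  set q : MvPolynomial τ (𝓞 K ⧸ v.asIdeal) := map (Int.castRingHom _) p with hq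
  have hq0 : q ≠ 0 := by
    rw [ne_zero_iff]
    refine ⟨μ, ?_⟩
    rw [hq, coeff_map]
    intro h
    apply h1
    rw [← Ideal.Quotient.eq_zero_iff_mem]
    simpa using h
  have h3 := sz q hq0
  rw [card_residue] at h3
  have hdeg : q.totalDegree ≤ p.totalDegree := tdeg_map _ _
  refine ⟨v.asIdeal, v.ne_bot, hfin', ?_⟩
  have h4 : (red v.asIdeal (Fintype.card τ) '' (rei '' {y : τ → 𝓞 K |
      aeval (fun o => algebraMap (𝓞 K) (AlgebraicClosure K) (y o)) Δ = 0})).ncard ≤
      {x : τ → 𝓞 K ⧸ v.asIdeal | eval x q = 0}.ncard := by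
    refine Set.ncard_le_ncard_of_injOn (fun x o => x (Fintype.equivFin τ o)) ?_ ?_
      (Set.toFinite _)
    · rintro _ ⟨_, ⟨y, hy, rfl⟩, rfl⟩
      change aeval (fun o => algebraMap (𝓞 K) (AlgebraicClosure K) (y o)) Δ = 0 at hy
      have h5 : (fun o => red v.asIdeal (Fintype.card τ) (rei y) (Fintype.equivFin τ o)) =
          fun o => Ideal.Quotient.mk v.asIdeal (y o) := by
        funext o
        change Ideal.Quotient.mk v.asIdeal (y ((Fintype.equivFin τ).symm
          (Fintype.equivFin τ o))) = _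
        rw [Equiv.symm_apply_apply]
      rw [Set.mem_ofPred_eq, h5]
      have h6 : aeval y p = 0 := by
        have hinj : Function.Injective (algebraMap (𝓞 K) (AlgebraicClosure K)) :=
          FaithfulSMul.algebraMap_injective (𝓞 K) (AlgebraicClosure K)
        apply hinj
        rw [map_zero]
        have h7 : aeval (fun o => algebraMap (𝓞 K) (AlgebraicClosure K) (y o))
            (map (Int.castRingHom ℚ) p) = 0 := by
          rw [hp, map_mul, hy, mul_zero]
        rw [aeval_def, eval₂_map] at h7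
        rw [aeval_def, ← h7, ← coe_eval₂Hom, ← coe_eval₂Hom]
        have h8 : (algebraMap (𝓞 K) (AlgebraicClosure K)).comp
            (eval₂Hom (algebraMap ℤ (𝓞 K)) y) =
            eval₂Hom ((algebraMap ℚ (AlgebraicClosure K)).comp (Int.castRingHom ℚ))
              (fun o => algebraMap (𝓞 K) (AlgebraicClosure K) (y o)) := by
          apply ringHom_ext
          · intro a
            simp
          · intro o
            simp
        exact RingHom.congr_fun h8 p
      rw [hq, eval_map]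
      have h9 : eval₂ (Int.castRingHom (𝓞 K ⧸ v.asIdeal))
          (fun o => Ideal.Quotient.mk v.asIdeal (y o)) p =
          Ideal.Quotient.mk v.asIdeal (aeval y p) := by
        rw [aeval_def, ← coe_eval₂Hom, ← coe_eval₂Hom]
        have h8 : (Ideal.Quotient.mk v.asIdeal).comp
            (eval₂Hom (algebraMap ℤ (𝓞 K)) y) =
            eval₂Hom (Int.castRingHom (𝓞 K ⧸ v.asIdeal))
              (fun o => Ideal.Quotient.mk v.asIdeal (y o)) := by
          apply ringHom_ext
          · intro a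
            simp
          · intro o
            simp
        exact (RingHom.congr_fun h8 p).symm
      rw [h9, h6, map_zero]
    · intro x _ x' _ hxx
      funext i
      have := congrFun hxx ((Fintype.equivFin τ).symm i)
      simpa using this
  have hNpos : (0 : ℝ) < Ideal.absNorm v.asIdeal := by
    exact_mod_cast Pool.Agent.W417.SecC.D2.norm_pos v
  rw [card_residue]
  set N := Ideal.absNorm v.asIdeal with hNdef
  have h5 : ({x : τ → 𝓞 K ⧸ v.asIdeal | eval x q = 0}.ncard : ℝ) * N ≤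
      (p.totalDegree : ℝ) * (N : ℝ) ^ Fintype.card τ := by
    have h6 := h3.trans (Nat.mul_le_mul_right (N ^ Fintype.card τ) hdeg)
    exact_mod_cast h6
  have h6 : (p.totalDegree : ℝ) ≤ ε * N := by
    have h7 : (B : ℝ) ≤ N := by exact_mod_cast h2.le
    rw [div_le_iff₀ hε] at hB
    nlinarith
  have h7 : ({x : τ → 𝓞 K ⧸ v.asIdeal | eval x q = 0}.ncard : ℝ) ≤
      ε * (N : ℝ) ^ Fintype.card τ := by
    have hpow : (0 : ℝ) ≤ (N : ℝ) ^ Fintype.card τ := by positivity
    have h8 : ({x : τ → 𝓞 K ⧸ v.asIdeal | eval x q = 0}.ncard : ℝ) * N ≤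
        (ε * (N : ℝ) ^ Fintype.card τ) * N := by nlinarith
    exact le_of_mul_le_mul_right h8 hNpos
  refine le_trans ?_ h7
  exact_mod_cast h4

end final

end Pool.Agent.H85.CY
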