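import Pool.Agent.H85.CY.Mac

/-! # Elimination for homogeneous systems with parameters -/

set_option autoImplicit false

namespace Pool.Agent.H85.CY

open MvPolynomial

section slice

variable {P R : Type} [Fintype P] [DecidableEq P] [CommRing R]

/-- the exponent vector as a finitely supported function -/
noncomputable def Mon.fin {n : ℕ} (β : Mon P n) : P →₀ ℕ := Finsupp.equivFunOnFinite.symm β.1

@[simp] lemma Mon.fin_apply {n : ℕ} (β : Mon P n) (p : P) : β.fin p = β.1 p := rfl

/-- the value of the part of degree `n` -/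
noncomputable def slice (n : ℕ) (q : MvPolynomial P R) (z : P → R) : R :=
  ∑ β : Mon P n, coeff β.fin q * ∏ p, z p ^ β.1 p

/-- the homomorphism to the polynomials in one variable -/
noncomputable def sc (z : P → R) : MvPolynomial P R →+* Polynomial R :=
  eval₂Hom Polynomial.C (fun p => Polynomial.C (z p) * Polynomial.X)

omit [DecidableEq P] in
lemma sc_monomial (z : P → R) (m : P →₀ ℕ) (a : R) :
    sc z (monomial m a) = Polynomial.C (a * ∏ p, z p ^ m p) * Polynomial.X ^ (∑ p, m p) := by
  rw [sc, eval₂Hom_monomial, Finsupp.prod_fintype _ _ (fun _ => pow_zero _)]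
  simp only [mul_pow, Finset.prod_mul_distrib, Finset.prod_pow_eq_pow_sum, map_mul, map_prod,
    map_pow]
  ring

lemma slice_eq (n : ℕ) (q : MvPolynomial P R) (z : P → R) :
    slice n q z = (sc z q).coeff n := by
  induction q using MvPolynomial.induction_on' with
  | monomial m a =>
    rw [sc_monomial, Polynomial.coeff_C_mul, Polynomial.coeff_X_pow, slice]
    by_cases h : n = ∑ p, m p
    · rw [if_pos h, mul_one]
      have hs : ∑ p, m p = n := h.symm
      rw [Finset.sum_eq_single (Mon.of (fun p => m p) hs)]
      · have e1 : (Mon.of (fun p => m p) hs).fin = m := by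
          ext p
          rfl
        rw [e1, coeff_monomial, if_pos rfl, Mon.of_val]
      · intro β _ hβ
        rw [coeff_monomial, if_neg, zero_mul]
        intro h1
        apply hβ
        apply Subtype.ext
        funext p
        rw [Mon.of_val, h1]
        rfl
      · intro h
        exact absurd (Finset.mem_univ _) h
    · rw [if_neg h, mul_zero]
      refine Finset.sum_eq_zero fun β _ => ?_
      rw [coeff_monomial, if_neg, zero_mul]
      intro h1
      apply h
      rw [h1]
      exact β.sum.symm
  | add p q hp hq =>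
    rw [map_add, Polynomial.coeff_add, ← hp, ← hq]
    simp only [slice, coeff_add, add_mul, Finset.sum_add_distrib]

omit [DecidableEq P] in
lemma sc_hom (z : P → R) (g : MvPolynomial P R) (D : ℕ) (hg : g.IsHomogeneous D)
    (h0 : eval z g = 0) : sc z g = 0 := by
  have h1 : sc z g = Polynomial.C (eval z g) * Polynomial.X ^ D := by
    conv_lhs => rw [g.as_sum]
    rw [map_sum, eval_eq', map_sum, Finset.sum_mul]
    refine Finset.sum_congr rfl fun m hm => ?_
    rw [sc_monomial]
    have h2 := hg (mem_support_iff.1 hm)
    rw [Finsupp.weight_apply, Finsupp.sum_fintype _ _ (fun _ => by simp)] at h2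
    have h3 : ∑ p, m p = D := by simpa using h2
    rw [h3]
  rw [h1, h0, map_zero, zero_mul]

/-- the parts of all degrees of an element of the ideal vanish at the common zeros -/
lemma slice_zero {Λ : Type} [Fintype Λ] (n : ℕ) (a g : Λ → MvPolynomial P R) (D : Λ → ℕ)
    (hg : ∀ l, (g l).IsHomogeneous (D l)) (z : P → R) (h0 : ∀ l, eval z (g l) = 0) :
    slice n (∑ l, a l * g l) z = 0 := by
  rw [slice_eq, map_sum]
  have h1 : ∑ l, sc z (a l * g l) = 0 := Finset.sum_eq_zero fun l _ => by
    rw [map_mul, sc_hom z (g l) (D l) (hg l) (h0 l), mul_zero]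
  rw [h1, Polynomial.coeff_zero]

end slice

/-- **Elimination.** If a system of homogeneous equations with parameters has only the trivial zero
at one value `c₀` of the parameters, then the same is true for all the values outside the zero set of a
polynomial. -/
theorem elim {τ P Λ : Type} [Fintype P] [DecidableEq P] [Fintype Λ]
    (g : Λ → MvPolynomial P (MvPolynomial τ ℚ)) (D : Λ → ℕ) (hg : ∀ l, (g l).IsHomogeneous (D l))
    (c₀ : τ → ℚ)
    (h0 : ∀ z : P → AlgebraicClosure ℚ, (∀ l, aeval z (map (eval c₀) (g l)) = 0) → z = 0) :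
    ∃ Δ : MvPolynomial τ ℚ, Δ ≠ 0 ∧ ∀ (k : Type) [Field k] [Algebra ℚ k] (c : τ → k),
      aeval c Δ ≠ 0 → ∀ z : P → k,
      (∀ l, eval z (map (aeval c : MvPolynomial τ ℚ →ₐ[ℚ] k).toRingHom (g l)) = 0) → z = 0 := by
  classical
  set I : Ideal (MvPolynomial P ℚ) := Ideal.span (Set.range fun l => map (eval c₀) (g l)) with hI
  have hrad : ∀ p, (X p : MvPolynomial P ℚ) ∈ I.radical := by
    intro p
    rw [← vanishingIdeal_zeroLocus_eq_radical (K := AlgebraicClosure ℚ)]
    intro z hz
    have h1 : z = 0 := h0 z fun l => hz _ (Ideal.subset_span ⟨l, rfl⟩)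
    rw [aeval_X, h1]
    rfl
  obtain ⟨n, hn⟩ := Ideal.exists_radical_pow_le_of_fg I (IsNoetherian.noetherian _)
  have hmon : ∀ α : Mon P n, (∏ p, (X p : MvPolynomial P ℚ) ^ α.1 p) ∈ I := by
    intro α
    apply hn
    have h1 : ∏ p, I.radical ^ α.1 p = I.radical ^ n := by
      rw [Finset.prod_pow_eq_pow_sum, α.sum]
    rw [← h1]
    exact Ideal.prod_mem_prod fun p _ => Ideal.pow_mem_pow (hrad p) _
  have hex : ∀ α : Mon P n, ∃ a : Λ → MvPolynomial P ℚ,
      ∑ l, a l * map (eval c₀) (g l) = ∏ p, (X p : MvPolynomial P ℚ) ^ α.1 p := fun α =>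
    (Ideal.mem_span_range_iff_exists_fun).1 (hmon α)
  choose a ha using hex
  let M : Matrix (Mon P n) (Mon P n) (MvPolynomial τ ℚ) :=
    Matrix.of fun α β => coeff β.fin (∑ l, map C (a α l) * g l)
  refine ⟨M.det, ?_, ?_⟩
  · intro hdet
    have h1 : eval c₀ M.det = 1 := by
      rw [RingHom.map_det]
      have h2 : (eval c₀).mapMatrix M = 1 := by
        ext α β
        rw [RingHom.mapMatrix_apply, Matrix.map_apply]
        simp only [M, Matrix.of_apply]
        rw [← coeff_map, map_sum]
        have h3 : ∑ l, map (eval c₀) (map C (a α l) * g l) =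
            ∏ p, (X p : MvPolynomial P ℚ) ^ α.1 p := by
          rw [← ha]
          refine Finset.sum_congr rfl fun l _ => ?_
          rw [map_mul, map_map]
          have h4 : (eval c₀).comp C = RingHom.id ℚ := by
            ext
            simp
          rw [h4, map_id]
        rw [h3]
        have h5 : ∏ p, (X p : MvPolynomial P ℚ) ^ α.1 p = monomial α.fin 1 := by
          rw [monomial_eq, Finsupp.prod_fintype _ _ (fun _ => pow_zero _), C_1, one_mul]
          rfl
        rw [h5, coeff_monomial]
        by_cases h6 : α = β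
        · subst h6
          rw [if_pos rfl, Matrix.one_apply_eq]
        · rw [if_neg, Matrix.one_apply_ne h6]
          intro h7
          apply h6
          apply Subtype.ext
          funext p
          exact DFunLike.congr_fun h7 p
      rw [h2, Matrix.det_one]
    rw [hdet, map_zero] at h1
    exact zero_ne_one h1
  · intro k _ _ c hc z hz
    set φ : MvPolynomial τ ℚ →+* k := (aeval c : MvPolynomial τ ℚ →ₐ[ℚ] k).toRingHom with hφ
    have hdet : (φ.mapMatrix M).det ≠ 0 := by
      rw [← RingHom.map_det]
      exact hc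
    have h1 : (φ.mapMatrix M).mulVec (fun β : Mon P n => ∏ p, z p ^ β.1 p) = 0 := by
      funext α
      rw [Matrix.mulVec, dotProduct]
      have h2 := slice_zero n (fun l => map φ (map C (a α l))) (fun l => map φ (g l)) D
        (fun l => (hg l).map _) z hz
      rw [Pi.zero_apply, ← h2, slice]
      refine Finset.sum_congr rfl fun β _ => ?_
      congr 1
      rw [RingHom.mapMatrix_apply, Matrix.map_apply]
      simp only [M, Matrix.of_apply]
      rw [← coeff_map, map_sum]
      simp only [map_mul]
    have h2 := Matrix.eq_zero_of_mulVec_eq_zero hdet h1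
    funext p
    have hs : ∑ i, (Pi.single p n : P → ℕ) i = n := by
      rw [Finset.sum_pi_single']
      simp
    have h3 := congrFun h2 (Mon.of _ hs)
    simp only [Mon.of_val, Pi.zero_apply] at h3
    have h4 : ∏ i, z i ^ (Pi.single p n : P → ℕ) i = z p ^ n := by
      rw [Finset.prod_eq_single p]
      · rw [Pi.single_eq_same]
      · intro i _ hi
        rw [Pi.single_eq_of_ne hi, pow_zero]
      · intro h
        exact absurd (Finset.mem_univ _) h
    rw [h4] at h3
    have hn0 : n ≠ 0 := by
      rintro rfl
      rw [pow_zero] at h3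
      exact one_ne_zero h3
    exact (pow_eq_zero_iff hn0).1 h3

end Pool.Agent.H85.CY
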