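import Pool.Agent.H85.CY.Place
import Pool.Agent.H85.CY.Count

/-! # Global statements -/

set_option autoImplicit false

namespace Pool.Agent.H85.CY

open NumberField IsDedekindDomain MvPolynomial Pool.Agent.TH120.Sec Filter Topology
open Pool.Agent.Q52.SecX (SmallV)

section glob

variable {K : Type} [Field K] [NumberField K]

set_option linter.deprecated false in
/-- the degree is a sum of the prime divisors of `d`, if no ramification index is prime to `d` -/
lemma mem_closure {L : Type} [Field L] [NumberField L] [Algebra K L] (d : ℕ)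
    (v : HeightOneSpectrum (𝓞 K))
    (hv : ∀ w : HeightOneSpectrum (𝓞 L), w.asIdeal.LiesOver v.asIdeal →
      ¬ Nat.Coprime (v.asIdeal.ramificationIdx' w.asIdeal) d) :
    Module.finrank K L ∈ AddSubmonoid.closure {l : ℕ | l.Prime ∧ l ∣ d} := by
  have hvm : v.asIdeal.IsMaximal := v.isMaximal
  rw [← Ideal.sum_ramification_inertia (𝓞 L) K L v.ne_bot (p := v.asIdeal)]
  refine AddSubmonoid.sum_mem _ fun P hP => ?_
  rw [IsDedekindDomain.mem_primesOverFinset_iff v.ne_bot] at hP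
  have hPp : P.IsPrime := hP.1
  have hPo : P.LiesOver v.asIdeal := hP.2
  have hP0 : P ≠ ⊥ := Ideal.ne_bot_of_liesOver_of_ne_bot v.ne_bot P
  have h := hv ⟨P, hPp, hP0⟩ hPo
  rw [Nat.Prime.not_coprime_iff_dvd] at h
  obtain ⟨l, hl, ⟨m, hm⟩, hd⟩ := h
  have h2 : v.asIdeal.ramificationIdx' P * v.asIdeal.inertiaDeg' P =
      (m * v.asIdeal.inertiaDeg' P) • l := by
    have h3 : v.asIdeal.ramificationIdx' P = l * m := hm
    rw [h3, smul_eq_mul]
    ring
  change v.asIdeal.ramificationIdx' P * v.asIdeal.inertiaDeg' P ∈ _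
  rw [h2]
  have h5 : l ∈ AddSubmonoid.closure {l : ℕ | l.Prime ∧ l ∣ d} :=
    AddSubmonoid.subset_closure ⟨hl, hd⟩
  exact AddSubmonoid.nsmul_mem _ h5 _

/-- an integer which is divisible exactly once by given primes -/
lemma exists_exact (T : Finset (HeightOneSpectrum (𝓞 K))) :
    ∃ b : 𝓞 K, ∀ v ∈ T, b ∈ v.asIdeal ∧ b ∉ v.asIdeal ^ 2 := by
  classical
  have hex : ∀ v : HeightOneSpectrum (𝓞 K), ∃ a : 𝓞 K, a ∈ v.asIdeal ∧ a ∉ v.asIdeal ^ 2 := by
    intro v
    obtain ⟨a, h1, h2⟩ := SetLike.exists_of_lt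
      (Ideal.pow_right_strictAnti v.asIdeal v.ne_bot v.isPrime.ne_top (show 1 < 2 by norm_num))
    exact ⟨a, by simpa using h1, h2⟩
  choose a ha1 ha2 using hex
  obtain ⟨b, hb⟩ := IsDedekindDomain.exists_forall_sub_mem_ideal (s := T)
    (fun v : HeightOneSpectrum (𝓞 K) => v.asIdeal) (fun _ => 2) (fun v _ => v.prime)
    (fun v _ v' _ h h' => h (HeightOneSpectrum.ext h')) (fun v => a v.1)
  refine ⟨b, fun v hv => ?_⟩
  have h1 := hb v hv
  constructor
  · have h2 : b - a v ∈ v.asIdeal := Ideal.pow_le_self two_ne_zero h1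
    have h3 := Ideal.add_mem _ h2 (ha1 v)
    rwa [sub_add_cancel] at h3
  · intro h3
    apply ha2 v
    have h4 := Ideal.sub_mem _ h3 h1
    rwa [sub_sub_cancel] at h4

/-- density zero of reindexed sets -/
lemma dens {τ : Type} [Fintype τ] (E : Set (τ → 𝓞 K))
    (h : ∀ ε : ℝ, 0 < ε → SmallV (Fintype.card τ) (rei '' E) ε) :
    ∀ ε : ℝ, 0 < ε → ∃ I : Ideal (𝓞 K), I ≠ ⊥ ∧
    (Set.ncard ((fun (y : τ → 𝓞 K) i => Ideal.Quotient.mk I (y i)) '' E) : ℝ) ≤
      ε * (Nat.card (𝓞 K ⧸ I) : ℝ) ^ (Fintype.card τ) := by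
  classical
  intro ε hε
  obtain ⟨I, hI, hfin, hcard⟩ := h ε hε
  refine ⟨I, hI, le_trans ?_ hcard⟩
  have h2 : ((fun (y : τ → 𝓞 K) i => Ideal.Quotient.mk I (y i)) '' E).ncard ≤
      (red I (Fintype.card τ) '' (rei '' E)).ncard := by
    refine Set.ncard_le_ncard_of_injOn (fun x => rei x) ?_ ?_ (Set.toFinite _)
    · rintro _ ⟨y, hy, rfl⟩
      exact ⟨rei y, ⟨y, hy, rfl⟩, rfl⟩
    · intro x _ y _ hxy
      funext o
      have := congrFun hxy (Fintype.equivFin τ o)
      simpa [rei] using this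
  exact_mod_cast h2

/-- density zero in boxes -/
lemma dens_box {τ : Type} [Fintype τ] (E : Set (τ → 𝓞 K))
    (h : ∀ ε : ℝ, 0 < ε → SmallV (Fintype.card τ) (rei '' E) ε) {J : Type} [Fintype J]
    (ω : Module.Basis J ℤ (𝓞 K)) :
    Tendsto (fun H : ℕ => ((E ∩ {c | ∀ i j, |ω.repr (c i) j| ≤ (H : ℤ)}).ncard : ℝ) /
      (({c : τ → 𝓞 K | ∀ i j, |ω.repr (c i) j| ≤ (H : ℤ)}).ncard : ℝ)) atTop (𝓝 0) := by
  classical
  have hinj : Function.Injective (rei : (τ → 𝓞 K) → Fin (Fintype.card τ) → 𝓞 K) := by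
    intro x y hxy
    funext o
    have := congrFun hxy (Fintype.equivFin τ o)
    simpa [rei] using this
  have hDZ : DZ (Fintype.card τ) (rei '' E) := by
    intro ε hε
    obtain ⟨I, hI, -, hcard⟩ := h ε hε
    exact ⟨I, hI, hcard⟩
  have key := Pool.Agent.TH377.Dyn.box_tendsto _ hDZ ω
  refine key.congr fun H => ?_
  have hbox : Pool.Agent.TH377.Dyn.BoxD ω (Fintype.card τ) H =
      rei '' {c : τ → 𝓞 K | ∀ i j, |ω.repr (c i) j| ≤ (H : ℤ)} := by
    ext y
    constructor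
    · intro hy
      refine ⟨fun o => y (Fintype.equivFin τ o), fun o j => hy _ j, ?_⟩
      funext i
      simp [rei]
    · rintro ⟨c, hc, rfl⟩ i j
      exact hc _ j
  rw [hbox, ← Set.image_inter hinj, Set.ncard_image_of_injective _ hinj,
    Set.ncard_image_of_injective _ hinj]

end glob

end Pool.Agent.H85.CY
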