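import Mathlib

/-! # The Macaulay matrix of `r` forms of degree `d` in `r` variables -/

set_option autoImplicit false

namespace Pool.Agent.H85.CY

/-- the exponent vectors of degree `d` -/
abbrev Mon (ι : Type) [Fintype ι] [DecidableEq ι] (d : ℕ) : Type :=
  ↥(Finset.piAntidiag (Finset.univ : Finset ι) d)

section mon

variable {ι : Type} [Fintype ι] [DecidableEq ι] {d : ℕ}

lemma Mon.sum (α : Mon ι d) : ∑ i, α.1 i = d := (Finset.mem_piAntidiag.1 α.2).1

/-- constructor -/
def Mon.of (f : ι → ℕ) (h : ∑ i, f i = d) : Mon ι d :=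
  ⟨f, Finset.mem_piAntidiag.2 ⟨h, fun i _ => Finset.mem_univ i⟩⟩

@[simp] lemma Mon.of_val (f : ι → ℕ) (h : ∑ i, f i = d) : (Mon.of f h).1 = f := rfl

/-- the value of a form with the coefficients `c` -/
def fval {R : Type} [CommRing R] (c : Mon ι d → R) (x : ι → R) : R :=
  ∑ γ : Mon ι d, c γ * ∏ i, x i ^ γ.1 i

lemma fval_map {R S : Type} [CommRing R] [CommRing S] (φ : R →+* S) (c : Mon ι d → R) (x : ι → R) :
    φ (fval c x) = fval (fun γ => φ (c γ)) (fun i => φ (x i)) := by
  simp only [fval, map_sum, map_mul, map_prod, map_pow]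

lemma fval_smul {R : Type} [CommRing R] (c : Mon ι d → R) (u : R) (x : ι → R) :
    fval c (fun i => u * x i) = u ^ d * fval c x := by
  rw [fval, fval, Finset.mul_sum]
  refine Finset.sum_congr rfl fun γ _ => ?_
  simp only [mul_pow, Finset.prod_mul_distrib, Finset.prod_pow_eq_pow_sum, γ.sum]
  ring

end mon

variable {r d : ℕ}

/-- the degree of the matrix -/
abbrev ND (r d : ℕ) : ℕ := r * (d - 1) + 1

lemma exists_big (α : Mon (Fin r) (ND r d)) : ∃ j, d ≤ α.1 j := by
  by_contra h
  push Not at h
  have h1 : ∑ i, α.1 i ≤ ∑ _i : Fin r, (d - 1) := Finset.sum_le_sum fun i _ => by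
    have := h i
    omega
  rw [α.sum, Finset.sum_const, Finset.card_univ, Fintype.card_fin, smul_eq_mul] at h1
  change r * (d - 1) + 1 ≤ r * (d - 1) at h1
  omega

/-- a variable whose `d`-th power divides the monomial -/
noncomputable def jj (α : Mon (Fin r) (ND r d)) : Fin r := (exists_big α).choose

lemma jj_le (α : Mon (Fin r) (ND r d)) : d ≤ α.1 (jj α) := (exists_big α).choose_spec

/-- the exponent divided by this power -/
noncomputable def low (α : Mon (Fin r) (ND r d)) : Fin r → ℕ :=
  fun i => α.1 i - (Pi.single (jj α) d : Fin r → ℕ) i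

lemma low_add (α : Mon (Fin r) (ND r d)) :
    (fun i => low α i + (Pi.single (jj α) d : Fin r → ℕ) i) = α.1 := by
  funext i
  rw [low]
  by_cases h : i = jj α
  · subst h
    rw [Pi.single_eq_same]
    have := jj_le α
    omega
  · rw [Pi.single_eq_of_ne h]
    omega

lemma low_sum (α : Mon (Fin r) (ND r d)) : ∑ i, low α i + d = ND r d := by
  have h := congrArg (fun f : Fin r → ℕ => ∑ i, f i) (low_add α)
  simp only [Finset.sum_add_distrib, α.sum] at h
  rw [Finset.sum_pi_single'] at h
  simpa using h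

/-- the Macaulay matrix -/
noncomputable def macM {R : Type} [CommRing R] (c : Fin r → Mon (Fin r) d → R) :
    Matrix (Mon (Fin r) (ND r d)) (Mon (Fin r) (ND r d)) R :=
  Matrix.of fun α β => ∑ γ : Mon (Fin r) d,
    if (fun i => low α i + γ.1 i) = β.1 then c (jj α) γ else 0

lemma macM_row {R : Type} [CommRing R] (c : Fin r → Mon (Fin r) d → R) (x : Fin r → R)
    (α : Mon (Fin r) (ND r d)) :
    ∑ β, macM c α β * ∏ i, x i ^ β.1 i = (∏ i, x i ^ low α i) * fval (c (jj α)) x := by
  simp only [macM, Matrix.of_apply, Finset.sum_mul]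
  rw [Finset.sum_comm, fval, Finset.mul_sum]
  refine Finset.sum_congr rfl fun γ _ => ?_
  have hs : ∑ i, (low α i + γ.1 i) = ND r d := by
    rw [Finset.sum_add_distrib, γ.sum]
    exact low_sum α
  rw [Finset.sum_eq_single (Mon.of _ hs)]
  · rw [if_pos (Mon.of_val _ hs).symm, Mon.of_val]
    simp only [pow_add, Finset.prod_mul_distrib]
    ring
  · intro β _ hβ
    rw [if_neg, zero_mul]
    intro h
    apply hβ
    exact Subtype.ext h.symm
  · intro h
    exact absurd (Finset.mem_univ _) h

lemma macM_map {R S : Type} [CommRing R] [CommRing S] (φ : R →+* S)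
    (c : Fin r → Mon (Fin r) d → R) :
    (macM c).map φ = macM fun j γ => φ (c j γ) := by
  ext α β
  simp only [macM, Matrix.map_apply, Matrix.of_apply, map_sum]
  refine Finset.sum_congr rfl fun γ _ => ?_
  split_ifs
  · rfl
  · exact map_zero φ

lemma det_map {R S : Type} [CommRing R] [CommRing S] (φ : R →+* S)
    (c : Fin r → Mon (Fin r) d → R) :
    φ (macM c).det = (macM fun j γ => φ (c j γ)).det := by
  rw [RingHom.map_det, RingHom.mapMatrix_apply, macM_map]

/-- the coefficients of the forms `x_j ^ d` -/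
def dia {R : Type} [CommRing R] (j : Fin r) (γ : Mon (Fin r) d) : R :=
  if γ.1 = Pi.single j d then 1 else 0

lemma macM_dia {R : Type} [CommRing R] : macM (R := R) (dia : Fin r → Mon (Fin r) d → R) = 1 := by
  ext α β
  rw [macM, Matrix.of_apply]
  have hs : ∑ i, (Pi.single (jj α) d : Fin r → ℕ) i = d := by
    rw [Finset.sum_pi_single']
    simp
  rw [Finset.sum_eq_single (Mon.of _ hs)]
  · rw [dia, if_pos (Mon.of_val _ hs), Mon.of_val]
    by_cases h : α = β
    · subst h
      rw [if_pos (low_add α), Matrix.one_apply_eq]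
    · rw [if_neg, Matrix.one_apply_ne h]
      intro h1
      apply h
      rw [low_add] at h1
      exact Subtype.ext h1
  · intro γ _ hγ
    have h1 : (dia (jj α) γ : R) = 0 := by
      rw [dia, if_neg]
      intro h
      apply hγ
      exact Subtype.ext h
    rw [h1, ite_self]
  · intro h
    exact absurd (Finset.mem_univ _) h

/-- if the determinant is not in a prime ideal, then all the common zeros modulo the ideal are
trivial -/
theorem mac_prime {R : Type} [CommRing R] (I : Ideal R) [I.IsPrime]
    (c : Fin r → Mon (Fin r) d → R) (hdet : (macM c).det ∉ I) (x : Fin r → R)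
    (hx : ∀ j, fval (c j) x ∈ I) (k : Fin r) : x k ∈ I := by
  classical
  have h1 : ∀ β : Mon (Fin r) (ND r d), (macM c).det * ∏ i, x i ^ β.1 i ∈ I := by
    intro β
    set y : Mon (Fin r) (ND r d) → R := fun β => ∏ i, x i ^ β.1 i with hy
    have h2 : (macM c).adjugate.mulVec ((macM c).mulVec y) = (macM c).det • y := by
      rw [Matrix.mulVec_mulVec, Matrix.adjugate_mul, Matrix.smul_mulVec, Matrix.one_mulVec]
    have h3 := congrFun h2 β
    rw [Pi.smul_apply, smul_eq_mul] at h3
    rw [← h3, Matrix.mulVec, dotProduct]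
    refine Ideal.sum_mem _ fun α _ => Ideal.mul_mem_left _ _ ?_
    rw [Matrix.mulVec, dotProduct, macM_row]
    exact Ideal.mul_mem_left _ _ (hx _)
  have hs : ∑ i, (Pi.single k (ND r d) : Fin r → ℕ) i = ND r d := by
    rw [Finset.sum_pi_single']
    simp
  have h2 := h1 (Mon.of _ hs)
  rw [Mon.of_val] at h2
  have h3 : ∏ i, x i ^ (Pi.single k (ND r d) : Fin r → ℕ) i = x k ^ ND r d := by
    rw [Finset.prod_eq_single k]
    · rw [Pi.single_eq_same]
    · intro i _ hi
      rw [Pi.single_eq_of_ne hi, pow_zero]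
    · intro h
      exact absurd (Finset.mem_univ _) h
  rw [h3] at h2
  rcases Ideal.IsPrime.mem_or_mem ‹I.IsPrime› h2 with h4 | h4
  · exact absurd h4 hdet
  · exact Ideal.IsPrime.mem_of_pow_mem ‹I.IsPrime› _ h4

end Pool.Agent.H85.CY
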